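import Pool.Agent.Helper2.CF.Wsp
import Pool.Agent.Helper88.MT.Extremal

/-!
Project CF (MP_b8862a_ag), block CF-6: the Hermitian form is positive definite.
-/

open Module LieModule LieAlgebra LieAlgebra.IsKilling

namespace CF

open MTP MTP.MF

section lie

variable {V : Type*} [AddCommGroup V] [Module ℂ V] [FiniteDimensional ℂ V]
  {L : Type*} [LieRing L] [LieAlgebra ℂ L] [FiniteDimensional ℂ L] [IsKilling ℂ L]
  {H : LieSubalgebra ℂ L} [H.IsCartanSubalgebra] [LieRingModule L V] [LieModule ℂ L V]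
  {b : (rootSystem H).Base} {es fs : H.root → L} {S : V →ₗ[ℂ] V →ₗ⋆[ℂ] ℂ} {θ : L → L}

/-- Distinct weight spaces are orthogonal. -/
private lemma hort33 {I : Type*} (B : WB (V := V) H I)
    (hint : ∀ i (α : H.root), ∃ a : ℤ, B.w i (coroot α.1) = (a : ℂ))
    (G : Gen b es fs) (T : TH b es fs S θ) {i j : I} {u v : V}
    (hu : ∀ h : H, ⁅(h : L), u⁆ = B.w i h • u)
    (hv : ∀ h : H, ⁅(h : L), v⁆ = B.w j h • v) (huv : S u v ≠ 0) : B.w i = B.w j := by
  have hco : ∀ α ∈ b.support, ∀ u v : V,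
      S ⁅((coroot α.1 : H) : L), u⁆ v = S u ⁅((coroot α.1 : H) : L), v⁆ := by
    intro α hα u v
    have h2 : θ ((coroot α.1 : H) : L) = ((coroot α.1 : H) : L) := by
      rw [← (G.tr α hα).lie_e_f, T.lie, T.e α hα, T.f α hα]
    rw [T.adj, h2]
  have h3 : ∀ α ∈ b.support, B.w i (coroot α.1) = B.w j (coroot α.1) := by
    intro α hα
    obtain ⟨a, ha⟩ := hint j α
    have h4 := hco α hα u v
    rw [hu, hv, ha, LinearMap.map_smul₂, LinearMap.map_smulₛₗ, smul_eq_mul,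
      smul_eq_mul, map_intCast] at h4
    rw [ha]
    exact mul_right_cancel₀ huv h4
  ext x
  have h5 : x ∈ Submodule.span ℂ ((rootSystem H).coroot '' b.support) := by
    rw [b.span_coroot_support, RootPairing.corootSpan,
      RootPairing.IsRootSystem.span_coroot_eq_top]
    trivial
  induction h5 using Submodule.span_induction with
  | mem u hu =>
    obtain ⟨α, hα, rfl⟩ := hu
    exact h3 α hα
  | zero => rw [map_zero, map_zero]
  | add u v _ _ hu hv => rw [map_add, map_add, hu, hv]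
  | smul r u _ hu => rw [map_smul, map_smul, hu]

/-- A weight vector lies in a weight space of the basis. -/
private lemma wt33 {I : Type*} [Fintype I] (B : WB (V := V) H I) {c : I → ℤ}
    (hc : ∀ i, B.w i (rho2 b) = (c i : ℂ)) {α : H.root} {x : L} (hx : x ∈ rootSpace H α.1) {k : I} {v : V}
    (hv : v ∈ wsp B k) (h0 : ⁅x, v⁆ ≠ 0) : ∃ j, ⁅x, v⁆ ∈ wsp B j ∧ c j = 2 * b.height α + c k := by
  have h1 : ∀ h : H, ⁅(h : L), ⁅x, v⁆⁆ = (α.1 h + B.w k h) • ⁅x, v⁆ := by
    intro h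
    have hvh : ⁅(h : L), v⁆ = B.w k h • v := hv h
    rw [leibniz_lie, lie_root hx, hvh, smul_lie, lie_smul, ← add_smul]
  have h2 : B.v.repr ⁅x, v⁆ ≠ 0 := by
    intro h
    exact h0 (B.v.repr.map_eq_zero_iff.mp h)
  obtain ⟨j, hj⟩ := Finsupp.ne_iff.mp h2
  have h3 : ∀ h : H, B.w j h = α.1 h + B.w k h := fun h => B.coord (h1 h) hj
  refine ⟨j, fun h => ?_, ?_⟩
  · rw [h1, h3]
  · have h4 := h3 (rho2 b)
    rw [hc, hc, root_rho] at h4
    have : ((c j : ℤ) : ℂ) = ((2 * b.height α + c k : ℤ) : ℂ) := by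
      rw [h4]; push_cast; ring
    exact Int.cast_injective this

/-- A basis vector killed by the positive root vectors has the top weight. -/
private lemma top33 (hirr : ∀ W : Submodule ℂ V, (∀ x : L, ∀ u ∈ W, ⁅x, u⁆ ∈ W) → W = ⊥ ∨ W = ⊤)
    {I : Type*} [Fintype I] (B : WB (V := V) H I) {c : I → ℤ}
    (hc : ∀ i, B.w i (rho2 b) = (c i : ℂ)) {k : I}
    (hk : ∀ α : H.root, b.IsPos α → ∀ x ∈ rootSpace H α.1, ⁅x, B.v k⁆ = 0) : ∀ i, c i ≤ c k := by
  classical
  let Neg : L → Prop := fun x => ∃ α : H.root, ¬ b.IsPos α ∧ x ∈ rootSpace H α.1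
  let M : Submodule ℂ V := sInf {U | B.v k ∈ U ∧ ∀ x, Neg x → ∀ u ∈ U, ⁅x, u⁆ ∈ U}
  have hM1 : B.v k ∈ M := by
    rw [Submodule.mem_sInf]
    rintro U ⟨hU, _⟩
    exact hU
  have hM2 : ∀ x, Neg x → ∀ u ∈ M, ⁅x, u⁆ ∈ M := by
    intro x hx u hu
    rw [Submodule.mem_sInf] at *
    intro U hU
    exact hU.2 x hx u (hu U hU)
  have hMle : ∀ U : Submodule ℂ V, B.v k ∈ U → (∀ x, Neg x → ∀ u ∈ U, ⁅x, u⁆ ∈ U) → M ≤ U :=
    fun U h1 h2 => sInf_le ⟨h1, h2⟩
  -- `M` is stable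
  have hM3 : ∀ x : L, ∀ u ∈ M, ⁅x, u⁆ ∈ M := by
    let U : Submodule ℂ V :=
      { carrier := {u | u ∈ M ∧ ∀ x : L, ⁅x, u⁆ ∈ M}
        add_mem' := by
          rintro a a' ⟨h1, h2⟩ ⟨h3, h4⟩
          exact ⟨M.add_mem h1 h3, fun x => by rw [lie_add]; exact M.add_mem (h2 x) (h4 x)⟩
        zero_mem' := ⟨M.zero_mem, fun x => by rw [lie_zero]; exact M.zero_mem⟩
        smul_mem' := by
          rintro k a ⟨h1, h2⟩
          exact ⟨M.smul_mem _ h1, fun x => by rw [lie_smul]; exact M.smul_mem _ (h2 x)⟩ }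
    have hU : M ≤ U := by
      apply hMle
      · refine ⟨hM1, fun x => ?_⟩
        let X : Submodule ℂ L :=
          { carrier := {x | ⁅x, B.v k⁆ ∈ M}
            add_mem' := by
              intro a b ha hb
              simp only [Set.mem_ofPred_eq, add_lie] at *
              exact add_mem ha hb
            zero_mem' := by simp
            smul_mem' := by
              intro c a ha
              simp only [Set.mem_ofPred_eq, smul_lie] at *
              exact Submodule.smul_mem _ _ ha }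
        refine root_induction (U := X) (H := H) ?_ x
        intro α z hz
        change ⁅z, B.v k⁆ ∈ M
        by_cases hα : α.IsZero
        · have hzH : z ∈ H := by
            rw [hα.eq] at hz
            rwa [rootSpace_zero_eq, LieSubalgebra.mem_toLieSubmodule] at hz
          have h1 : ⁅z, B.v k⁆ = B.w k ⟨z, hzH⟩ • B.v k := B.lie_v k ⟨z, hzH⟩
          rw [h1]
          exact Submodule.smul_mem _ _ hM1
        · have hα' : α ∈ H.root := by simpa [LieSubalgebra.root] using hα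
          by_cases hpos : b.IsPos ⟨α, hα'⟩
          · rw [hk ⟨α, hα'⟩ hpos z hz]; exact M.zero_mem
          · exact hM2 z ⟨⟨α, hα'⟩, hpos, hz⟩ _ hM1
      · rintro x hx u ⟨hu1, hu2⟩
        refine ⟨hM2 x hx u hu1, fun z => ?_⟩
        rw [leibniz_lie]
        exact M.add_mem (hu2 _) (hM2 x hx _ (hu2 z))
    intro x u hu
    exact (hU hu).2 x
  have hM4 : M = ⊤ := by
    rcases hirr M hM3 with h | h
    · exfalso
      rw [h, Submodule.mem_bot] at hM1
      exact B.v.ne_zero k hM1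
    · exact h
  -- comparison
  let N : Submodule ℂ V :=
    { carrier := {u | ∀ i, c k < c i → B.v.repr u i = 0}
      add_mem' := by
        intro a a' ha hb j hj
        rw [map_add, Finsupp.add_apply, ha j hj, hb j hj, add_zero]
      zero_mem' := by intro j _; simp
      smul_mem' := by
        intro c a ha j hj
        rw [map_smul, Finsupp.smul_apply, ha j hj, smul_zero] }
  have hN : M ≤ N := by
    apply hMle
    · intro i hi
      rw [B.v.repr_self, Finsupp.single_apply, if_neg]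
      rintro rfl
      exact lt_irrefl _ hi
    · rintro x ⟨α, hα, hx⟩ u hu i hi
      have e : u = ∑ j, B.v.repr u j • B.v j := (B.v.sum_repr _).symm
      rw [e, lie_sum, map_sum, Finsupp.finsetSum_apply]
      refine Finset.sum_eq_zero fun j _ => ?_
      rw [lie_smul, map_smul, Finsupp.smul_apply, smul_eq_mul]
      by_cases hj : B.v.repr ⁅x, B.v j⁆ i = 0
      · rw [hj, mul_zero]
      · have h1 := B.coord_root hx hj (rho2 b)
        rw [hc, hc, root_rho] at h1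
        have h2 : c i = 2 * b.height α + c j := by
          have : ((c i : ℤ) : ℂ) = ((2 * b.height α + c j : ℤ) : ℂ) := by
            rw [h1]; push_cast; ring
          exact Int.cast_injective this
        have h4 : ¬ 0 < b.height α := hα
        rw [hu j (by omega), zero_mul]
  intro i
  by_contra hit
  have h1 : B.v i ∈ N := hN (by rw [hM4]; trivial)
  have h2 := h1 i (not_le.mp hit)
  rw [B.v.repr_self, Finsupp.single_eq_same] at h2
  exact one_ne_zero h2

open Classical in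
/-- Positivity on a weight space. -/
private lemma wpos33 [Nontrivial V]
    (hirr : ∀ W : Submodule ℂ V, (∀ x : L, ∀ u ∈ W, ⁅x, u⁆ ∈ W) → W = ⊥ ∨ W = ⊤)
    {I : Type*} [Fintype I] (B : WB (V := V) H I)
    (T : TH b es fs S θ)
    {c : I → ℤ} (hc : ∀ i, B.w i (rho2 b) = (c i : ℂ)) {t : I} (ht : ∀ i, c i ≤ c t) (h1 : S (B.v t) (B.v t) = 1)
    (hn : ∀ {α : H.root}, b.IsPos α → ∀ {x : L}, x ∈ rootSpace H α.1 → x ≠ 0 →
      ∃ r : ℝ, 0 < r ∧ traceForm ℂ L V x (θ x) = (r : ℂ))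
    (ea fa : H.root → L) (htr : ∀ α : H.root, IsSl2Triple ((coroot α.1 : H) : L) (ea α) (fa α))
    (he : ∀ α, ea α ∈ rootSpace H α.1) (hf : ∀ α, fa α ∈ rootSpace H (-α.1))
    (hcas : ∀ k : I, ∃ r : ℝ, 0 ≤ r ∧ (∀ v ∈ wsp B k,
        ∑ α with b.IsPos α, (traceForm ℂ L V (ea α) (fa α))⁻¹ • ⁅fa α, ⁅ea α, v⁆⁆ = (r : ℂ) • v) ∧
      (r = 0 → ∀ α, b.IsPos α → ∀ v ∈ wsp B k, ⁅ea α, v⁆ = 0)) :
    ∀ (n : ℕ) (k : I), (c t - c k).toNat = n → ∀ v ∈ wsp B k, v ≠ 0 → ∃ r : ℝ, 0 < r ∧ S v v = (r : ℂ) := by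
  intro n
  induction n using Nat.strong_induction_on with
  | _ n ih =>
  intro k hk v hv hv0
  by_cases hkt : c k = c t
  · -- the top weight
    have hkt' : k = t := top_unique B hirr b hc ht k hkt
    subst hkt'
    have h2 : ∀ i, i ≠ k → B.v.repr v i = 0 := by
      intro i hi
      by_contra hne
      apply hi
      apply top_unique B hirr b hc ht
      have h3 := B.coord (hv (rho2 b)) hne
      rw [hc, hc] at h3
      exact Int.cast_injective h3
    have h3 : v = B.v.repr v k • B.v k := by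
      conv_lhs => rw [← B.v.sum_repr v]
      rw [Finset.sum_eq_single k]
      · intro i _ hi
        rw [h2 i hi, zero_smul]
      · intro h
        exact absurd (Finset.mem_univ k) h
    have h4 : B.v.repr v k ≠ 0 := by
      intro h
      rw [h, zero_smul] at h3
      exact hv0 h3
    refine ⟨Complex.normSq (B.v.repr v k), Complex.normSq_pos.mpr h4, ?_⟩
    rw [h3, LinearMap.map_smul₂, LinearMap.map_smulₛₗ, h1, ← h3, smul_eq_mul, smul_eq_mul, mul_one,
      Complex.mul_conj]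
  · have hlt : c k < c t := lt_of_le_of_ne (ht k) hkt
    obtain ⟨r, hr, hr1, hr2⟩ := hcas k
    -- the constants
    have hcon : ∀ α : H.root, b.IsPos α → ∃ r : ℝ, 0 < r ∧ ∀ u w : V,
        (traceForm ℂ L V (ea α) (fa α))⁻¹ * S ⁅fa α, u⁆ w = ((r⁻¹ : ℝ) : ℂ) * S u ⁅ea α, w⁆ := by
      intro α hα
      obtain ⟨r, hr, hr1⟩ := hn hα (he α) (htr α).e_ne_zero
      have hmem : -α.1 ∈ H.root := by
        simpa [LieSubalgebra.root] using H.isNonZero_coe_root α
      have h2 : θ (ea α) ∈ rootSpace H (⟨-α.1, hmem⟩ : H.root).1 := T.root α _ (he α)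
      have h3 : fa α ∈ rootSpace H (⟨-α.1, hmem⟩ : H.root).1 := hf α
      obtain ⟨s, hs⟩ := mem_line h3 (htr α).f_ne_zero h2
      rw [hs, map_smul, smul_eq_mul] at hr1
      have hrC : (r : ℂ) ≠ 0 := by exact_mod_cast hr.ne'
      have hs0 : s ≠ 0 := by
        rintro rfl
        rw [zero_mul] at hr1
        exact hrC hr1.symm
      have ht0 : traceForm ℂ L V (ea α) (fa α) ≠ 0 := by
        intro h
        rw [h, mul_zero] at hr1
        exact hrC hr1.symm
      have h4 : ea α = starRingEnd ℂ s • θ (fa α) := by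
        rw [← T.smul, ← hs, T.inv]
      refine ⟨r, hr, fun u w => ?_⟩
      have h5 : S u ⁅ea α, w⁆ = s * S u ⁅θ (fa α), w⁆ := by
        conv_lhs => rw [h4]
        rw [smul_lie, LinearMap.map_smulₛₗ, smul_eq_mul, Complex.conj_conj]
      rw [T.adj, h5, ← mul_assoc]
      congr 1
      rw [Complex.ofReal_inv, ← hr1]
      field_simp
    choose! ρ hρ hρ1 using hcon
    have hsum : (r : ℂ) * S v v = ∑ α with b.IsPos α, ((ρ α)⁻¹ : ℝ) * S ⁅ea α, v⁆ ⁅ea α, v⁆ := by
      have h2 := congrArg (fun u => S u v) (hr1 v hv)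
      simp only [LinearMap.map_sum₂, LinearMap.map_smul₂, smul_eq_mul] at h2
      rw [← h2]
      refine Finset.sum_congr rfl fun α hα => ?_
      rw [hρ1 α (Finset.mem_filter.mp hα).2]
    have hex : ∀ α : H.root, b.IsPos α → ∃ p : ℝ, 0 ≤ p ∧ S ⁅ea α, v⁆ ⁅ea α, v⁆ = (p : ℂ) ∧
        (⁅ea α, v⁆ ≠ 0 → 0 < p) := by
      intro α hα
      by_cases h0 : ⁅ea α, v⁆ = 0
      · exact ⟨0, le_rfl, by rw [h0, map_zero, Complex.ofReal_zero], fun h => absurd h0 h⟩
      · obtain ⟨j, hj, hj2⟩ := wt33 B hc (he α) hv h0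
        have h3 : 0 < b.height α := hα
        have h5 := ht j
        obtain ⟨p, hp, hp2⟩ := ih (c t - c j).toNat (by omega) j rfl _ hj h0
        exact ⟨p, hp.le, hp2, fun _ => hp⟩
    choose! p hp0 hp1 hp2 using hex
    have hq : (r : ℂ) * S v v = ((∑ α with b.IsPos α, (ρ α)⁻¹ * p α : ℝ) : ℂ) := by
      rw [hsum, Complex.ofReal_sum]
      refine Finset.sum_congr rfl fun α hα => ?_
      rw [hp1 α (Finset.mem_filter.mp hα).2, Complex.ofReal_mul]
    rcases hr.eq_or_lt with h0 | hpos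
    · -- the weight space is killed by the positive root vectors
      exfalso
      have h3 : ∀ α : H.root, b.IsPos α → ∀ x ∈ rootSpace H α.1, ⁅x, B.v k⁆ = 0 := by
        intro α hα x hx
        obtain ⟨a, ha⟩ := mem_line (he α) (htr α).e_ne_zero hx
        rw [ha, smul_lie, hr2 h0.symm α hα (B.v k) (fun h => B.lie_v k h), smul_zero]
      have h4 := top33 hirr B hc h3 t
      omega
    · obtain ⟨α, hα, hα0⟩ : ∃ α, b.IsPos α ∧ ⁅ea α, v⁆ ≠ 0 := by
        by_contra! hcon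
        have h3 := hr1 v hv
        rw [Finset.sum_eq_zero] at h3
        · rcases smul_eq_zero.mp h3.symm with h4 | h4
          · exact hpos.ne' (by exact_mod_cast h4)
          · exact hv0 h4
        · intro α hα
          rw [hcon α (Finset.mem_filter.mp hα).2, lie_zero, smul_zero]
      have h5 : 0 < ∑ α with b.IsPos α, (ρ α)⁻¹ * p α := by
        refine Finset.sum_pos' (fun β hβ => ?_) ⟨α, by simp [hα], ?_⟩
        · exact mul_nonneg (inv_nonneg.mpr (hρ β (Finset.mem_filter.mp hβ).2).le)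
            (hp0 β (Finset.mem_filter.mp hβ).2)
        · exact mul_pos (inv_pos.mpr (hρ α hα)) (hp2 α hα hα0)
      refine ⟨(∑ α with b.IsPos α, (ρ α)⁻¹ * p α) / r, div_pos h5 hpos, ?_⟩
      have h6 : (r : ℂ) ≠ 0 := by exact_mod_cast hpos.ne'
      rw [Complex.ofReal_div, ← hq]
      field_simp

open Classical in
/-- CF-6: the form is positive definite. -/
theorem form_pos [Nontrivial V]
    (hirr : ∀ W : Submodule ℂ V, (∀ x : L, ∀ u ∈ W, ⁅x, u⁆ ∈ W) → W = ⊥ ∨ W = ⊤)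
    (hfaith : ∀ x : L, (∀ u : V, ⁅x, u⁆ = 0) → x = 0)
    {I : Type*} [Fintype I] (B : WB (V := V) H I)
    (hint : ∀ i (α : H.root), ∃ a : ℤ, B.w i (coroot α.1) = (a : ℂ))
    (G : Gen b es fs) (F : HF b es fs S) (T : TH b es fs S θ)
    {c : I → ℤ} (hc : ∀ i, B.w i (rho2 b) = (c i : ℂ)) {t : I} (ht : ∀ i, c i ≤ c t) (h1 : S (B.v t) (B.v t) = 1)
    (hn : ∀ {α : H.root}, b.IsPos α → ∀ {x : L}, x ∈ rootSpace H α.1 → x ≠ 0 →
      ∃ r : ℝ, 0 < r ∧ traceForm ℂ L V x (θ x) = (r : ℂ))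
    (ea fa : H.root → L) (htr : ∀ α : H.root, IsSl2Triple ((coroot α.1 : H) : L) (ea α) (fa α))
    (he : ∀ α, ea α ∈ rootSpace H α.1) (hf : ∀ α, fa α ∈ rootSpace H (-α.1))
    (hcas : ∀ k : I, ∃ r : ℝ, 0 ≤ r ∧ (∀ v ∈ wsp B k,
        ∑ α with b.IsPos α, (traceForm ℂ L V (ea α) (fa α))⁻¹ • ⁅fa α, ⁅ea α, v⁆⁆ = (r : ℂ) • v) ∧
      (r = 0 → ∀ α, b.IsPos α → ∀ v ∈ wsp B k, ⁅ea α, v⁆ = 0))
    {u : V} (hu : u ≠ 0) : ∃ r : ℝ, 0 < r ∧ S u u = (r : ℂ) := by
  have _ := hfaith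
  have _ := F
  have hW : ∀ k, ∀ v ∈ wsp B k, v ≠ 0 → ∃ r : ℝ, 0 < r ∧ S v v = (r : ℂ) := fun k =>
    wpos33 hirr B T hc ht h1 hn ea fa htr he hf hcas _ k rfl
  -- the components of `u`
  let X : Finset (Dual ℂ H) := Finset.univ.image B.w
  let w : Dual ℂ H → V := fun χ => ∑ i with B.w i = χ, B.v.repr u i • B.v i
  have hwsum : u = ∑ χ ∈ X, w χ := by
    conv_lhs => rw [← B.v.sum_repr u]
    exact (Finset.sum_fiberwise_of_maps_to (fun i _ => Finset.mem_image_of_mem B.w (Finset.mem_univ i)) _).symm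
  have hwmem : ∀ i, w (B.w i) ∈ wsp B i := by
    intro i
    refine Submodule.sum_mem _ fun j hj => Submodule.smul_mem _ _ fun h => ?_
    rw [B.lie_v, (Finset.mem_filter.mp hj).2]
  have hcross : ∀ χ ∈ X, ∀ ψ ∈ X, χ ≠ ψ → S (w χ) (w ψ) = 0 := by
    intro χ hχ ψ hψ hne
    obtain ⟨i, _, rfl⟩ := Finset.mem_image.mp hχ
    obtain ⟨j, _, rfl⟩ := Finset.mem_image.mp hψ
    by_contra h0
    exact hne (hort33 B hint G T (hwmem i) (hwmem j) h0)
  have hSu : S u u = ∑ χ ∈ X, S (w χ) (w χ) := by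
    conv_lhs => rw [hwsum]
    rw [LinearMap.map_sum₂]
    refine Finset.sum_congr rfl fun χ hχ => ?_
    rw [map_sum]
    refine Finset.sum_eq_single χ (fun ψ hψ hne => hcross χ hχ ψ hψ hne.symm) (fun h => absurd hχ h)
  have hex : ∀ χ ∈ X, ∃ p : ℝ, 0 ≤ p ∧ S (w χ) (w χ) = (p : ℂ) ∧ (w χ ≠ 0 → 0 < p) := by
    intro χ hχ
    obtain ⟨i, _, rfl⟩ := Finset.mem_image.mp hχ
    by_cases h0 : w (B.w i) = 0
    · exact ⟨0, le_rfl, by rw [h0, map_zero, Complex.ofReal_zero], fun h => absurd h0 h⟩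
    · obtain ⟨p, hp, hp2⟩ := hW i _ (hwmem i) h0
      exact ⟨p, hp.le, hp2, fun _ => hp⟩
  choose! p hp0 hp1 hp2 using hex
  obtain ⟨χ, hχ, hχ0⟩ : ∃ χ ∈ X, w χ ≠ 0 := by
    by_contra! hcon
    exact hu (hwsum.trans (Finset.sum_eq_zero hcon))
  refine ⟨∑ χ ∈ X, p χ, Finset.sum_pos' hp0 ⟨χ, hχ, hp2 χ hχ hχ0⟩, ?_⟩
  rw [hSu, Complex.ofReal_sum]
  exact Finset.sum_congr rfl hp1

end lie

end CF
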